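import Pool.Agent.LRS.Stmts

/-!
# Squad LRN, row MPL (helper67): a polynomial which maps a symmetric integer matrix to its kernel
-/

set_option autoImplicit false

open Polynomial

namespace Pool.Agent.LRS.H67

open Pool.Agent.LRS

theorem tr_mul_self_eq_zero {ι κ : Type} [Fintype ι] {Z : Matrix ι κ ℤ}
    (h : Z.transpose * Z = 0) : Z = 0 := by
  ext i j
  have h1 : (Z.transpose * Z) j j = 0 := by rw [h]; rfl
  rw [Matrix.mul_apply] at h1
  have h2 := (Finset.sum_eq_zero_iff_of_nonneg (fun i _ => by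
    rw [Matrix.transpose_apply]
    exact mul_self_nonneg _)).1 h1 i (Finset.mem_univ i)
  rw [Matrix.transpose_apply] at h2
  exact mul_self_eq_zero.1 h2

theorem down {ι : Type} [Fintype ι] [DecidableEq ι] {P : Matrix ι ι ℤ} (hP : P.IsSymm)
    (Y : Matrix ι ι ℤ) : ∀ d : ℕ, P ^ d * Y = 0 → P * Y = 0 := by
  intro d
  induction d with
  | zero =>
    intro h
    rw [pow_zero, Matrix.one_mul] at h
    rw [h, Matrix.mul_zero]
  | succ d ih =>
    intro h
    rcases Nat.eq_zero_or_pos d with hd | hd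
    · subst hd
      rw [zero_add, pow_one] at h
      exact h
    · apply ih
      apply tr_mul_self_eq_zero
      have h1 : (P ^ d * Y).transpose = Y.transpose * P ^ d := by
        rw [Matrix.transpose_mul, Matrix.transpose_pow, hP]
      have h2 : P ^ d = P ^ (d - 1) * P := by
        rw [← pow_succ]
        congr 1
        omega
      have h3 : P * (P ^ d * Y) = 0 := by
        rw [← Matrix.mul_assoc, ← pow_succ']
        exact h
      calc (P ^ d * Y).transpose * (P ^ d * Y)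
          = Y.transpose * (P ^ (d - 1) * (P * (P ^ d * Y))) := by
            rw [h1]
            nth_rewrite 1 [h2]
            simp only [Matrix.mul_assoc]
        _ = 0 := by rw [h3, Matrix.mul_zero, Matrix.mul_zero]

theorem exists_g {ι : Type} [Fintype ι] [DecidableEq ι] (P : Matrix ι ι ℤ) (hP : P.IsSymm) :
    ∃ g : ℤ[X], g.coeff 0 ≠ 0 ∧ P * aeval P g = 0 := by
  have hne : P.charpoly ≠ 0 := (Matrix.charpoly_monic P).ne_zero
  obtain ⟨g, hg1, hg2⟩ := Polynomial.exists_eq_pow_rootMultiplicity_mul_and_not_dvd P.charpoly hne 0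
  rw [C_0, sub_zero] at hg1 hg2
  refine ⟨g, fun h => hg2 (X_dvd_iff.2 h), ?_⟩
  apply down hP _ (P.charpoly.rootMultiplicity 0)
  have h := Matrix.aeval_self_charpoly P
  rw [hg1, map_mul, map_pow, aeval_X] at h
  exact h

theorem mpl : MplStmt := by
  intro n B
  obtain ⟨S, hS⟩ : ∃ S : Set (Matrix (Fin n) (Fin n) ℤ),
      S = {P | P.IsSymm ∧ ∀ i j, 0 ≤ P i j ∧ P i j ≤ (B : ℤ)} := ⟨_, rfl⟩
  have hfin : S.Finite := by
    have h1 : (Set.Icc (0 : Fin n → Fin n → ℤ) (fun _ _ => (B : ℤ))).Finite := Set.finite_Icc _ _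
    refine h1.subset ?_
    intro P hP
    rw [hS] at hP
    exact ⟨fun i j => (hP.2 i j).1, fun i j => (hP.2 i j).2⟩
  have hg : ∀ P : Matrix (Fin n) (Fin n) ℤ, ∃ g : ℤ[X], P ∈ S → g.coeff 0 ≠ 0 ∧
      P * aeval P g = 0 := by
    intro P
    by_cases hP : P ∈ S
    · have hP' := hP
      rw [hS] at hP'
      obtain ⟨g, h1, h2⟩ := exists_g P hP'.1
      exact ⟨g, fun _ => ⟨h1, h2⟩⟩
    · exact ⟨0, fun h => absurd h hP⟩
  choose g hg using hg
  refine ⟨∑ P ∈ hfin.toFinset, ∑ i, ∑ j, |((aeval P (g P) i j : ℤ) : ℝ)|,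
    Finset.sum_nonneg fun _ _ => Finset.sum_nonneg fun _ _ => Finset.sum_nonneg fun _ _ =>
      abs_nonneg _, ?_⟩
  intro ι _ _ hι P hP hPB
  obtain ⟨e⟩ : Nonempty (ι ≃ Fin n) := ⟨Fintype.equivFinOfCardEq hι⟩
  obtain ⟨f, hf⟩ : ∃ f : Matrix ι ι ℤ ≃ₐ[ℤ] Matrix (Fin n) (Fin n) ℤ,
      ∀ M i j, f M i j = M (e.symm i) (e.symm j) :=
    ⟨Matrix.reindexAlgEquiv ℤ ℤ e, fun M i j => rfl⟩
  have hmem : f P ∈ S := by
    rw [hS]
    refine ⟨?_, fun i j => ?_⟩
    · ext i j
      rw [Matrix.transpose_apply, hf, hf]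
      exact hP.apply _ _
    · rw [hf]
      exact hPB _ _
  obtain ⟨h1, h2⟩ := hg (f P) hmem
  have h3 : aeval (f P) (g (f P)) = f (aeval P (g (f P))) :=
    Polynomial.aeval_algHom_apply (f : Matrix ι ι ℤ →ₐ[ℤ] Matrix (Fin n) (Fin n) ℤ) P (g (f P))
  refine ⟨g (f P), h1, ?_, ?_⟩
  · apply f.injective
    rw [map_mul, ← h3, h2, map_zero]
  · intro i j
    have h4 : aeval P (g (f P)) i j = aeval (f P) (g (f P)) (e i) (e j) := by
      rw [h3, hf, e.symm_apply_apply, e.symm_apply_apply]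
    rw [h4]
    calc |((aeval (f P) (g (f P)) (e i) (e j) : ℤ) : ℝ)|
        ≤ ∑ j', |((aeval (f P) (g (f P)) (e i) j' : ℤ) : ℝ)| :=
          Finset.single_le_sum (f := fun j' => |((aeval (f P) (g (f P)) (e i) j' : ℤ) : ℝ)|)
            (fun _ _ => abs_nonneg _) (Finset.mem_univ _)
      _ ≤ ∑ i', ∑ j', |((aeval (f P) (g (f P)) i' j' : ℤ) : ℝ)| :=
          Finset.single_le_sum
            (f := fun i' => ∑ j', |((aeval (f P) (g (f P)) i' j' : ℤ) : ℝ)|)
            (fun _ _ => Finset.sum_nonneg fun _ _ => abs_nonneg _) (Finset.mem_univ _)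
      _ ≤ ∑ P ∈ hfin.toFinset, ∑ i, ∑ j, |((aeval P (g P) i j : ℤ) : ℝ)| :=
          Finset.single_le_sum
            (f := fun P => ∑ i, ∑ j, |((aeval P (g P) i j : ℤ) : ℝ)|)
            (fun _ _ => Finset.sum_nonneg fun _ _ => Finset.sum_nonneg fun _ _ => abs_nonneg _)
            (hfin.mem_toFinset.2 hmem)

end Pool.Agent.LRS.H67
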